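import Pool.Agent.H85.StrongGamma

set_option autoImplicit false

namespace Pool.Agent.Results.MP_b9e574_gt.Game

open Pool.Agent.H85.StrongGammaDefs

universe u

/-- A space is a strong gamma-set iff ONE has no winning strategy in the associated game. -/
theorem result (X : Type u) [TopologicalSpace X] : StrongGamma X ↔ ¬ OneWins X :=
  Pool.Agent.H85.StrongGamma.main

end Pool.Agent.Results.MP_b9e574_gt.Game
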